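import Pool.Agent.MP_df844f_gt.g.Spec

/-! Shared lemmas for sections 3 and 4: cosets of clique subgroups, supports, control. -/

namespace Pool.Agent.MP_df844f_gt

open PS

/-- `b` lies in the coset of `a` under the subgroup generated by `T`. -/
def InW (T : Finset S) (a b : W) : Prop :=
  Relation.ReflTransGen (fun u v => ∃ s ∈ T, v = g s * u) a b

theorem InW.wall {T : Finset S} (hT : Clq T) {a b : W} (h : InW T a b) :
    (∀ s ∈ T, wall s b = wall s a) ∧ Sep a b ⊆ T.image fun s => wall s a := by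
  induction h with
  | refl => exact ⟨fun _ _ => rfl, by rw [Sep_self]; exact Finset.empty_subset _⟩
  | @tail b _ _ q ih =>
    obtain ⟨t, ht, rfl⟩ := q
    refine ⟨fun s hs => ?_, fun r hr => ?_⟩
    · by_cases e : s = t
      · rw [e, wall_g_mul, ih.1 t ht]
      · rw [wall_adj (hT s hs t ht e), ih.1 s hs]
    · rw [mem_Sep_step] at hr
      by_cases c : r ∈ Sep a b
      · exact ih.2 c
      · exact Finset.mem_image.2 ⟨t, ht, by rw [← ih.1 t ht]; tauto⟩

theorem InW.d_le {T : Finset S} (hT : Clq T) {a b : W} (h : InW T a b) : d a b ≤ T.card := by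
  rw [← card_Sep]
  exact (Finset.card_le_card (h.wall hT).2).trans Finset.card_image_le

/-- Chambers of one cell have lifts in one coset. -/
theorem PS.lift_cell {B : Type} [MulAction W B] {Y : PS B} {o : B} {T : Finset S} {x x' : Y.Om}
    (h : Y.cell x T = Y.cell x' T) {w : W} (hw : w • o = Y.f x) :
    ∃ w', InW T w w' ∧ w' • o = Y.f x' := by
  have := (cell_eq_iff.1 h).2
  clear h
  induction this with
  | refl => exact ⟨w, Relation.ReflTransGen.refl, hw⟩
  | tail _ q ih =>
    obtain ⟨w', a, b⟩ := ih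
    obtain ⟨s, hs, e⟩ := q
    exact ⟨g s * w', a.tail ⟨s, hs, rfl⟩, by rw [mul_smul, b, Y.e_f e]⟩

/-- In a convex set two chambers whose separating walls have types in `T` lie in one cell. -/
theorem cvx_cell' {K : Finset W} (hK : Cvx (K : Set W)) {T : Finset S} (a : (cvxPS K).Om) :
    ∀ (n : ℕ) (b : (cvxPS K).Om), d a.1 b.1 = n →
      (∀ x s, Btw a.1 x b.1 → Desc a.1 x s → s ∈ T) → (cvxPS K).cell a T = (cvxPS K).cell b T := by
  intro n
  induction n with
  | zero => intro b h _; rw [Subtype.ext (d_eq_zero.1 h)]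
  | succ n ih =>
    intro b h hT
    obtain ⟨s, hs⟩ := exists_desc (b := a.1) (x := b.1) (fun e => by
      rw [e, d_self] at h; omega)
    have hb : g s * b.1 ∈ K := hK _ a.2 _ b.2 _ hs.btw
    have h1 := hs.d_eq
    have e1 := ih ⟨g s * b.1, hb⟩ (by show d a.1 (g s * b.1) = n; omega) (fun x t hx ht =>
      hT x t (btw_iff.2 ((btw_iff.1 hx).trans (btw_iff.1 hs.btw))) ht)
    rw [e1]
    refine (cell_e (Y := cvxPS K) (s := s) (x := b) (y := ⟨g s * b.1, hb⟩) (hT _ s ?_ hs) rfl).symm
    simp [Btw, d_self]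

theorem cvx_near {K : Finset W} (hK : Cvx (K : Set W)) (a b : (cvxPS K).Om) :
    (cvxPS K).Near K.card a b := by
  have h := cvx_cell' hK (T := Finset.univ) a _ b rfl fun _ _ _ _ => Finset.mem_univ _
  have : Fintype (cvxPS K).Om := inferInstanceAs (Fintype K)
  have h2 := rn_of_reflTransGen Finset.univ (fun _ b _ => Finset.mem_univ b) (cell_eq_iff.1 h).2
  have h3 := near_of_rn (k := 1) (fun a b ⟨_, _, e⟩ => Near.single e) h2
  refine h3.mono ?_
  rw [one_mul, Finset.card_univ, ← Nat.card_eq_fintype_card]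
  exact (Nat.card_eq_card_toFinset (K : Set W)).trans_le (by simp)

theorem cvx_cell {K : Finset W} (hK : Cvx (K : Set W)) {T : Finset S} (hT : Clq T)
    {a b : (cvxPS K).Om} (h : InW T a.1 b.1) : (cvxPS K).cell a T = (cvxPS K).cell b T := by
  have key : ∀ (n : ℕ) (x : W), d a.1 x = n → Btw a.1 x b.1 → InW T a.1 x := by
    intro n
    induction n with
    | zero => intro x h _; rw [← d_eq_zero.1 h]; exact Relation.ReflTransGen.refl
    | succ n ih =>
      intro x h1 h2
      have hne : a.1 ≠ x := fun e => by rw [← e, d_self] at h1; omega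
      obtain ⟨s, hs⟩ := exists_desc (b := a.1) (x := x) hne.symm
      have h3 := hs.d_eq
      have h4 := ih (g s * x) (by omega) (btw_iff.2 ((btw_iff.1 hs.btw).trans (btw_iff.1 h2)))
      obtain ⟨t, ht, e⟩ := Finset.mem_image.1 ((h.wall hT).2 (btw_iff.1 h2 (desc_iff.1 hs)))
      rw [← (h4.wall hT).1 t ht, ← wall_g_mul s x] at e
      obtain rfl := wall_inj e
      exact h4.tail ⟨t, ht, (g_mul_g_mul t x).symm⟩
  refine cvx_cell' hK a _ b rfl fun x s hx hs => ?_
  obtain ⟨t, ht, e⟩ := Finset.mem_image.1 ((h.wall hT).2 (btw_iff.1 hx (desc_iff.1 hs)))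
  rw [← ((key _ x rfl hx).wall hT).1 t ht] at e
  exact wall_inj e ▸ ht

theorem F2_eq_one {a : F2} (h : a ≠ 0) : a = 1 := by revert a; decide

/-- Short elements act freely at the points of the orbit of the base point. -/
theorem Thick.free {B : Type} [MulAction W B] {o : B} {ρ : ℕ} (h : Thick o ρ) {a w : W}
    (ha : len a ≤ ρ) (e : a • w • o = w • o) : a = 1 := by
  have := h w (a * w) (by rw [mul_smul, e]) (by rw [d_mul_left]; exact ha)
  simpa using this.symm

namespace PS

variable {B : Type} [MulAction W B] {Y : PS B}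

theorem chain_add_self (u : Y.Chain) : u + u = 0 := by
  ext c
  exact F2_add_self _

theorem chain_eq_sum (u : Y.Chain) : u = ∑ c ∈ u.support, Finsupp.single c 1 := by
  conv_lhs => rw [← Finsupp.sum_single u]
  exact Finset.sum_congr rfl fun c hc => by rw [F2_eq_one (Finsupp.mem_support_iff.1 hc)]

theorem bd_apply (u : Y.Chain) (τ : Y.Cell) :
    Y.bd u τ = ∑ c ∈ u.support, Y.bd (Finsupp.single c 1) τ := by
  conv_lhs => rw [chain_eq_sum u]
  rw [map_sum, Finsupp.finsetSum_apply]

/-- The cells in the boundary of a cell. -/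
theorem mem_bd_single {x : Y.Om} {J : Finset S} {τ : Y.Cell}
    (h : Y.bd (Finsupp.single (Y.cell x J) 1) τ ≠ 0) :
    ∃ t, (∀ s ∈ J, adj s t) ∧ τ = Y.cell x (insert t J) := by
  rw [bd_single, Finsupp.finsetSum_apply] at h
  obtain ⟨t, ht, e⟩ := Finset.exists_ne_zero_of_sum_ne_zero h
  exact ⟨t, (Finset.mem_filter.1 ht).2, (Finsupp.single_apply_ne_zero.1 e).1⟩

theorem bd_single_apply {x : Y.Om} {J : Finset S} {t : S} (ht : ∀ s ∈ J, adj s t) :
    Y.bd (Finsupp.single (Y.cell x J) 1) (Y.cell x (insert t J)) = 1 := by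
  rw [bd_single, Finsupp.finsetSum_apply, Finset.sum_eq_single t, Finsupp.single_eq_same]
  · intro u hu hne
    refine Finsupp.single_eq_of_ne fun e => hne ?_
    have e1 := (cell_eq_iff.1 e).1
    have : u ∈ insert t J := by rw [e1]; exact Finset.mem_insert_self _ _
    rcases Finset.mem_insert.1 this with k | k
    · exact k
    · exact absurd ((Finset.mem_filter.1 hu).2 u k) (adj_irrefl u)
  · intro k
    exact absurd (Finset.mem_filter.2 ⟨Finset.mem_univ _, ht⟩) k

theorem mem_support_bd {u : Y.Chain} {τ : Y.Cell} (h : τ ∈ (Y.bd u).support) :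
    ∃ x J t, Y.cell x J ∈ u.support ∧ (∀ s ∈ J, adj s t) ∧ τ = Y.cell x (insert t J) := by
  have h1 := Finsupp.mem_support_iff.1 h
  rw [bd_apply] at h1
  obtain ⟨c, hc, e⟩ := Finset.exists_ne_zero_of_sum_ne_zero h1
  obtain ⟨x, J, rfl⟩ := cell_ind c
  obtain ⟨t, a, b⟩ := mem_bd_single e
  exact ⟨x, J, t, hc, a, b⟩

/-- Parity: a cell of a cycle has, in each of its boundary cells, a partner. -/
theorem partner {u : Y.Chain} (hu : Y.bd u = 0) {x : Y.Om} {J : Finset S} {t : S}
    (hx : Y.cell x J ∈ u.support) (ht : ∀ s ∈ J, adj s t) :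
    ∃ x' J' t', Y.cell x' J' ∈ u.support ∧ Y.cell x' J' ≠ Y.cell x J ∧ (∀ s ∈ J', adj s t') ∧
      Y.cell x' (insert t' J') = Y.cell x (insert t J) := by
  by_contra hc
  have h : Y.bd u (Y.cell x (insert t J)) = 0 := by rw [hu]; rfl
  rw [bd_apply, Finset.sum_eq_single (Y.cell x J), bd_single_apply ht] at h
  · exact one_ne_zero h
  · intro c h1 h2
    by_contra h3
    obtain ⟨x', J', rfl⟩ := cell_ind c
    obtain ⟨t', a, b⟩ := mem_bd_single h3
    exact hc ⟨x', J', t', h1, h2, a, b.symm⟩
  · exact fun k => absurd hx k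

theorem mem_support_ch1 {D : Finset (Y.Om × S)} {c : Y.Cell} (h : c ∈ (Y.ch1 D).support) :
    ∃ p ∈ D, c = Y.cell p.1 {p.2} := by
  have h1 := Finsupp.mem_support_iff.1 h
  rw [ch1, Finsupp.finsetSum_apply] at h1
  obtain ⟨p, hp, e⟩ := Finset.exists_ne_zero_of_sum_ne_zero h1
  exact ⟨p, hp, (Finsupp.single_apply_ne_zero.1 e).1⟩

theorem card_support_ch1 (D : Finset (Y.Om × S)) : (Y.ch1 D).support.card ≤ D.card := by
  refine (Finset.card_le_card (t := D.image fun p => Y.cell p.1 {p.2}) fun c hc => ?_).trans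
    Finset.card_image_le
  obtain ⟨p, hp, rfl⟩ := mem_support_ch1 hc
  exact Finset.mem_image_of_mem _ hp

theorem card_support_add (u v : Y.Chain) :
    (u + v).support.card ≤ u.support.card + v.support.card :=
  (Finset.card_le_card Finsupp.support_add).trans (Finset.card_union_le _ _)

/-- Coefficient of a face in the boundary of a set of chambers. -/
theorem State.mem_bd_ch0 (hY : Y.State) (Z : Finset Y.Om) (y : Y.Om) (s : S) :
    Y.cell y {s} ∈ (Y.bd (Y.ch0 Z)).support ↔
      (y ∈ Z ∧ ∀ z ∈ Z, Y.e s y z → z = y) ∨ (y ∉ Z ∧ ∃ z ∈ Z, Y.e s y z) := by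
  classical
  have e1 : Y.bd (Y.ch0 Z) (Y.cell y {s}) =
      ((Z.filter fun x => x = y ∨ Y.e s y x).card : F2) := by
    rw [bd_ch0, Finsupp.finsetSum_apply, Finset.card_filter, Nat.cast_sum]
    refine Finset.sum_congr rfl fun x _ => ?_
    rw [Finsupp.finsetSum_apply, Finset.sum_eq_single s, Finsupp.single_apply, Nat.cast_ite,
      Nat.cast_one, Nat.cast_zero]
    · exact if_congr (eq_comm.trans hY.cell_one) rfl rfl
    · intro t _ ht
      exact Finsupp.single_eq_of_ne fun e => ht (Finset.singleton_injective (cell_eq_iff.1 e).1).symm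
    · simp
  rw [Finsupp.mem_support_iff, e1]
  by_cases h : ∃ z ∈ Z, Y.e s y z ∧ z ≠ y
  · obtain ⟨z, hz, he, hne⟩ := h
    by_cases hy : y ∈ Z
    · have : (Z.filter fun x => x = y ∨ Y.e s y x) = {y, z} := by
        ext x
        simp only [Finset.mem_filter, Finset.mem_insert, Finset.mem_singleton]
        exact ⟨fun k => k.2.imp_right fun q => hY.fold q he, by
          rintro (rfl | rfl)
          exacts [⟨hy, Or.inl rfl⟩, ⟨hz, Or.inr he⟩]⟩
      rw [this, Finset.card_pair hne.symm]
      exact ⟨fun k => absurd (by decide) k, by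
        rintro (k | k)
        exacts [absurd (k.2 z hz he) hne, absurd hy k.1]⟩
    · have : (Z.filter fun x => x = y ∨ Y.e s y x) = {z} := by
        ext x
        simp only [Finset.mem_filter, Finset.mem_singleton]
        exact ⟨fun k => k.2.elim (fun q => absurd (q ▸ k.1) hy) fun q => hY.fold q he, by
          rintro rfl
          exact ⟨hz, Or.inr he⟩⟩
      rw [this, Finset.card_singleton]
      exact ⟨fun _ => Or.inr ⟨hy, z, hz, he⟩, fun _ => by decide⟩
  · push Not at h
    by_cases hy : y ∈ Z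
    · have : (Z.filter fun x => x = y ∨ Y.e s y x) = {y} := by
        ext x
        simp only [Finset.mem_filter, Finset.mem_singleton]
        exact ⟨fun k => k.2.elim id (h x k.1), by
          rintro rfl
          exact ⟨hy, Or.inl rfl⟩⟩
      rw [this, Finset.card_singleton]
      exact ⟨fun _ => Or.inl ⟨hy, h⟩, fun _ => by decide⟩
    · have : (Z.filter fun x => x = y ∨ Y.e s y x) = ∅ := by
        ext x
        simp only [Finset.mem_filter, Finset.notMem_empty, iff_false]
        exact fun k => hy (k.2.elim id (h x k.1) ▸ k.1)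
      rw [this, Finset.card_empty]
      exact ⟨fun k => absurd (by decide) k, by
        rintro (k | ⟨_, z, hz, he⟩)
        exacts [absurd k.1 hy, absurd (h z hz he ▸ hz) hy]⟩

end PS

theorem Hom.Ctl.comp' {B : Type} [MulAction W B] {Y Y' Y'' : PS B} {φ : Hom Y Y'}
    {ψ : Hom Y' Y''} {κ κ' : ℕ} (h : φ.Ctl κ) (k : ψ.Ctl κ') : (φ.comp ψ).Ctl (κ + κ') where
  area := by have := h.area; have := k.area; have := φ.new_comp ψ; omega
  pot := by have := h.pot; have := k.pot; omega
  near n u v q := (h.near _ u v (k.near n _ _ q)).mono (by have := h.pot; have := k.pot; omega)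

theorem Hom.push_comp {B : Type} [MulAction W B] {Y Y' Y'' : PS B} (φ : Hom Y Y')
    (ψ : Hom Y' Y'') (u : Y.Chain) : (φ.comp ψ).push u = ψ.push (φ.push u) :=
  EHom.push_comp φ.toEHom ψ.toEHom u

theorem Hom.push_id {B : Type} [MulAction W B] {Y : PS B} (u : Y.Chain) :
    (Hom.id Y).push u = u := by
  induction u using Finsupp.induction_linear with
  | zero => simp
  | add a b ha hb => rw [map_add, ha, hb]
  | single c a =>
    obtain ⟨x, J, rfl⟩ := cell_ind c
    exact EHom.push_single _ x J a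

theorem EHom.mem_support_push {B B' : Type} [MulAction W B] [MulAction W B'] {Y : PS B}
    {Y' : PS B'} (φ : EHom Y Y') {u : Y.Chain} {c : Y'.Cell} (h : c ∈ (φ.push u).support) :
    ∃ c' ∈ u.support, c = φ.cmap c' := by
  obtain ⟨c', a, b⟩ := Finset.mem_image.1 (φ.support_push u h)
  exact ⟨c', a, b.symm⟩

end Pool.Agent.MP_df844f_gt
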