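import Pool.Agent.MP_df844f_gt.g.Lift

/-! Cycles of rank two cells bound after attaching convex sets. -/

namespace Pool.Agent.MP_df844f_gt

open PS

namespace FillA

theorem clq_ins {s t u : S} (h : adj s t) (hu : ∀ v ∈ ({s, t} : Finset S), adj v u) :
    Clq (insert u {s, t}) := by
  have a := hu s (by simp)
  have b := hu t (by simp)
  intro x hx y hy hne
  simp only [Finset.mem_insert, Finset.mem_singleton] at hx hy
  rcases hx with rfl | rfl | rfl <;> rcases hy with rfl | rfl | rfl <;>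
    first | exact absurd rfl hne | assumption | exact adj_symm ‹_›

theorem card_faces {K : Finset W} {E : (cvxPS K).Chain}
    (h : ∀ c ∈ E.support, ∃ x s, c = (cvxPS K).cell x {s}) : E.support.card ≤ 12 * K.card := by
  refine (Finset.card_le_card (t := (K.attach ×ˢ (Finset.univ : Finset S)).image
    fun p => (cvxPS K).cell p.1 {p.2}) fun c hc => ?_).trans (Finset.card_image_le.trans ?_)
  · obtain ⟨x, s, rfl⟩ := h c hc
    exact Finset.mem_image.2 ⟨(x, s), Finset.mem_product.2 ⟨Finset.mem_attach _ _,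
      Finset.mem_univ _⟩, rfl⟩
  · simp [mul_comm]

end FillA

open FillA in
theorem fill1S (hF : FactS) (hL : LiftS) (hS : FillS) : Fill1S := by
  classical
  obtain ⟨CK, hL⟩ := hL
  refine ⟨CK, ?_⟩
  intro B _ o n hT Y x0 w0 β c0 hY hw hc hb h0 hch
  obtain ⟨Y', φ, K, ι, s1, g1, c1, n1, k1, cv, hk⟩ := hL B o n hT Y x0 w0 β.support c0 hY hw
    (fun c h => by
      obtain ⟨x, s, t, -, a, b⟩ := hc c h
      exact ⟨x, _, a, b⟩) h0 hch
  choose x J k hx using fun c : β.support => hk c.1 c.2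
  have hJ : ∀ c, ∃ s t, adj s t ∧ J c = {s, t} := fun c => by
    obtain ⟨y, s, t, a, b, -⟩ := hc c.1 c.2
    exact ⟨s, t, a, (cell_eq_iff.1 ((hx c).1.symm.trans b)).1⟩
  obtain ⟨β', hβ⟩ : ∃ β' : (cvxPS K).Chain,
      β' = ∑ c : β.support, Finsupp.single ((cvxPS K).cell (k c) (J c)) 1 := ⟨_, rfl⟩
  have eβ : β = ∑ c : β.support, Finsupp.single (Y.cell (x c) (J c)) 1 := by
    conv_lhs => rw [chain_eq_sum β, ← Finset.sum_coe_sort]
    exact Finset.sum_congr rfl fun c _ => by rw [← (hx c).1]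
  have wd : ∀ c c' u u', (∀ v ∈ J c, adj v u) →
      Y.cell (x c) (insert u (J c)) = Y.cell (x c') (insert u' (J c')) →
      (cvxPS K).cell (k c) (insert u (J c)) = (cvxPS K).cell (k c') (insert u' (J c')) := by
    intro c c' u u' hu e
    obtain ⟨s, t, a, b⟩ := hJ c
    have cl : Clq (insert u (J c)) := by
      rw [b] at hu ⊢
      exact clq_ins a hu
    have e0 := (cell_eq_iff.1 e).1
    rw [← e0] at e ⊢
    obtain ⟨v, v1, v2⟩ := lift_cell e (hx c).2.2.1
    have v3 := (v1.d_le cl).trans (hF.clq _ cl)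
    have : v = (k c').1 := by
      refine hT _ _ (v2.trans (hx c').2.2.1.symm) ?_
      have t1 := d_triangle v (k c).1 w0
      have t2 := d_triangle v w0 (k c').1
      have := (hx c).2.2.2.1
      have := (hx c').2.2.2.1
      rw [d_comm v (k c).1, d_comm (k c).1 w0] at t1
      omega
    exact cvx_cell cv cl (this ▸ v1)
  obtain ⟨P, hP⟩ : ∃ P : Y.Cell → (cvxPS K).Cell, ∀ c u, (∀ v ∈ J c, adj v u) →
      P (Y.cell (x c) (insert u (J c))) = (cvxPS K).cell (k c) (insert u (J c)) := by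
    refine ⟨fun τ => if h : ∃ p : β.support × S, τ = Y.cell (x p.1) (insert p.2 (J p.1)) then
      (cvxPS K).cell (k h.choose.1) (insert h.choose.2 (J h.choose.1))
      else (cvxPS K).cell (k ⟨c0, h0⟩) ∅, fun c u hu => ?_⟩
    have h : ∃ p : β.support × S, Y.cell (x c) (insert u (J c)) =
      Y.cell (x p.1) (insert p.2 (J p.1)) := ⟨(c, u), rfl⟩
    exact (dif_pos h).trans (wd c _ u _ hu h.choose_spec).symm
  have b0 : (cvxPS K).bd β' = 0 := by
    have := congrArg (Finsupp.lmapDomain F2 F2 P) hb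
    rw [map_zero, eβ, map_sum, map_sum] at this
    rw [← this, hβ, map_sum]
    refine Finset.sum_congr rfl fun c _ => ?_
    rw [bd_single, bd_single, map_sum]
    refine Finset.sum_congr rfl fun u hu => ?_
    rw [Finsupp.lmapDomain_apply, Finsupp.mapDomain_single, hP c u (Finset.mem_filter.1 hu).2]
  obtain ⟨E, e1, e2⟩ := hS K cv β' (fun c h => by
    have h1 := Finsupp.mem_support_iff.1 h
    rw [hβ, Finsupp.finsetSum_apply] at h1
    obtain ⟨c', -, e⟩ := Finset.exists_ne_zero_of_sum_ne_zero h1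
    obtain ⟨s, t, a, b⟩ := hJ c'
    exact ⟨k c', s, t, a, b ▸ (Finsupp.single_apply_ne_zero.1 e).1⟩) b0
  refine ⟨Y', φ, K.card, ι.push E, s1, g1, c1, n1, k1,
    (ι.card_support_push E).trans (card_faces e1), ?_, fun c h => ?_⟩
  · rw [← ι.push_bd, e2, hβ, map_sum]
    conv_rhs => rw [eβ, map_sum]
    refine Finset.sum_congr rfl fun c _ => ?_
    rw [EHom.push_single, EHom.push_single, (hx c).2.2.2.2]
  · obtain ⟨c', a, rfl⟩ := ι.mem_support_push h
    obtain ⟨y, s, rfl⟩ := e1 c' a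
    refine ⟨ι.π y, s, rfl, ((hx ⟨c0, h0⟩).2.1.map φ.toEHom).trans ?_⟩
    rw [(hx ⟨c0, h0⟩).2.2.2.2]
    exact (cvx_near cv _ y).map ι

open FillA in
theorem fillYS (h : Fill1S) : FillYS := by
  classical
  obtain ⟨CK, h⟩ := h
  refine ⟨CK, ?_⟩
  intro B _ o n hT Y x0 w0 β
  induction hN : β.support.card using Nat.strong_induction_on generalizing Y with
  | _ N ih =>
  intro hY hw hc hb
  by_cases h0 : β = 0
  · subst h0
    exact ⟨Y, Hom.id Y, 0, 0, hY, Hom.good_id, Hom.ctl_id, Hom.new_id.le, Nat.zero_le _,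
      by simp, by simp, by simp⟩
  obtain ⟨c0, h0⟩ := Finsupp.support_nonempty_iff.2 h0
  obtain ⟨Rc, hR⟩ : ∃ Rc : Y.Cell → Prop, Rc = fun c =>
    Relation.ReflTransGen (fun a b => a ∈ β.support ∧ b ∈ β.support ∧ Y.Tri a b) c0 c := ⟨_, rfl⟩
  have r0 : Rc c0 := by rw [hR]
  have rs : ∀ a b, Rc a → a ∈ β.support → b ∈ β.support → Y.Tri a b → Rc b := by
    intro a b h1 h2 h3 h4
    rw [hR] at h1 ⊢
    exact h1.tail ⟨h2, h3, h4⟩
  have m0 : ∀ c, c ∈ (β.filter Rc).support ↔ c ∈ β.support ∧ Rc c := fun c => by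
    rw [Finsupp.support_filter, Finset.mem_filter]
  have m1 : ∀ c, c ∈ (β.filter fun c => ¬ Rc c).support ↔ c ∈ β.support ∧ ¬ Rc c := fun c => by
    rw [Finsupp.support_filter, Finset.mem_filter]
  have es : β.filter Rc + β.filter (fun c => ¬ Rc c) = β := Finsupp.filter_add_filter_not _ _
  have cs : (β.filter Rc).support.card + (β.filter fun c => ¬ Rc c).support.card = N := by
    rw [Finsupp.support_filter, Finsupp.support_filter, ← hN]
    exact Finset.card_filter_add_card_filter_not _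
  have eb : Y.bd (β.filter Rc) + Y.bd (β.filter fun c => ¬ Rc c) = 0 := by
    rw [← map_add, es, hb]
  have b0 : Y.bd (β.filter Rc) = 0 := by
    by_contra hne
    obtain ⟨τ, hτ⟩ := Finsupp.support_nonempty_iff.2 hne
    have hτ' : τ ∈ (Y.bd (β.filter fun c => ¬ Rc c)).support := by
      rw [Finsupp.mem_support_iff] at hτ ⊢
      intro e
      have := DFunLike.congr_fun eb τ
      rw [Finsupp.add_apply, e, add_zero] at this
      exact hτ this
    obtain ⟨y, I, u, a1, a2, rfl⟩ := mem_support_bd hτ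
    obtain ⟨y', I', u', b1, -, b3⟩ := mem_support_bd hτ'
    obtain ⟨z, s, t, c1, c2, -⟩ := hc _ ((m0 _).1 a1).1
    obtain rfl := (cell_eq_iff.1 c2).1
    have e := (cell_eq_iff.1 b3).1
    refine ((m1 _).1 b1).2 (rs _ _ ((m0 _).1 a1).2 ((m0 _).1 a1).1 ((m1 _).1 b1).1
      ⟨y, y', _, I', _, rfl, rfl, Finset.subset_insert u _, e ▸ Finset.subset_insert u' _,
        clq_ins c1 a2, by rw [b3, e]⟩)
  have b1 : Y.bd (β.filter fun c => ¬ Rc c) = 0 := by rwa [b0, zero_add] at eb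
  obtain ⟨Y1, φ, κ, E, s1, g1, c1, n1, k1, e1, d1, f1⟩ := h B o n hT Y x0 w0 (β.filter Rc) c0 hY hw
    (fun c hc' => hc c ((m0 c).1 hc').1) b0 ((m0 _).2 ⟨h0, r0⟩) fun c hc' => by
      have := ((m0 c).1 hc').2
      clear hc'
      rw [hR] at this
      induction this with
      | refl => exact Relation.ReflTransGen.refl
      | @tail b _ p q ih =>
        have p1 : Rc b := by rw [hR]; exact p
        exact ih.tail ⟨(m0 _).2 ⟨q.1, p1⟩, (m0 _).2 ⟨q.2.1, rs _ _ p1 q.1 q.2.1 q.2.2⟩, q.2.2⟩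
  have pos : 0 < (β.filter Rc).support.card := Finset.card_pos.2 ⟨c0, (m0 _).2 ⟨h0, r0⟩⟩
  have le := φ.card_support_push (β.filter fun c => ¬ Rc c)
  obtain ⟨Y2, ψ, κ', E', s2, g2, c2, n2, k2, e2, d2, f2⟩ := ih _ (by omega) Y1 (φ.π x0)
    (φ.push (β.filter fun c => ¬ Rc c)) rfl s1 (hw.trans (φ.f_π x0).symm) (fun c hc' => by
      obtain ⟨c', a, rfl⟩ := φ.mem_support_push hc'
      obtain ⟨y, s, t, a1, rfl, a3⟩ := hc c' ((m1 c').1 a).1
      exact ⟨φ.π y, s, t, a1, rfl, a3.map φ.toEHom⟩) (by rw [← φ.push_bd, b1, map_zero])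
  refine ⟨Y2, φ.comp ψ, κ + κ', ψ.push E + E', s2, g1.comp g2, c1.comp' c2,
    by have := φ.new_comp ψ; omega, ?_, ?_, ?_, fun c hc' => ?_⟩
  · rw [← cs, mul_add]
    exact add_le_add k1 (k2.trans (Nat.mul_le_mul_left _ le))
  · have := card_support_add (ψ.push E) E'
    have := ψ.card_support_push E
    omega
  · rw [map_add, ← ψ.push_bd, d1, d2, ← map_add, ← map_add, es, Hom.push_comp]
  · rcases Finset.mem_union.1 (Finsupp.support_add hc') with a | a
    · obtain ⟨c', a', rfl⟩ := ψ.mem_support_push a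
      obtain ⟨y, s, rfl, a2⟩ := f1 c' a'
      exact ⟨ψ.π y, s, rfl, (a2.map ψ.toEHom).mono (by omega)⟩
    · obtain ⟨y, s, rfl, a2⟩ := f2 c a
      exact ⟨y, s, rfl, a2.mono (by omega)⟩

theorem capS (h : FillYS) : Cap2S := by
  obtain ⟨CK, h⟩ := h
  refine ⟨CK, fun m0 => ⟨2 * (2 * m0) + 6, ?_⟩⟩
  intro B _ o hTr hT Y D p0 hY hD hp hm
  obtain ⟨w0, hw⟩ := hTr (Y.f p0.1)
  have nr : ∀ p ∈ D, Y.Near (2 * m0) p0.1 p.1 := fun p hp' =>
    (hY.bconn_near hD hp hp').mono (by omega)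
  obtain ⟨Y', φ, κ, E, s1, g1, c1, n1, k1, e1, d1, f1⟩ := h B o (2 * m0) hT Y p0.1 w0
    (Y.bd (Y.ch1 D)) hY hw (fun c hc => by
      obtain ⟨y, I, t, a1, a2, rfl⟩ := mem_support_bd hc
      obtain ⟨p, hp', e⟩ := mem_support_ch1 a1
      obtain rfl := (cell_eq_iff.1 e).1
      exact ⟨p.1, t, p.2, adj_symm (a2 _ (Finset.mem_singleton_self _)),
        cell_mono e (Finset.subset_insert _ _), nr p hp'⟩) (bd_bd _)
  refine ⟨Y', φ, κ, E, s1, g1, c1, n1, k1, e1, ?_, fun c hc => ?_⟩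
  · rw [map_add, d1, ← φ.push_bd, chain_add_self]
  · rcases Finset.mem_union.1 (Finsupp.support_add hc) with a | a
    · obtain ⟨c', a', rfl⟩ := φ.mem_support_push a
      obtain ⟨p, hp', rfl⟩ := mem_support_ch1 a'
      exact ⟨φ.π p.1, p.2, rfl, ((nr p hp').map φ.toEHom).mono (by omega)⟩
    · exact f1 c a

end Pool.Agent.MP_df844f_gt
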