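import Pool.Agent.MP_df844f_gt.g.Base

/-! Attaching a convex set along a connected family of cells. -/

namespace Pool.Agent.MP_df844f_gt

open PS

namespace LiftA

theorem nosep {F : Finset W} {r a : W} (hr : ∀ x ∈ F, ∀ s, r ≠ wall s x) {R : ℕ}
    (hF : ∀ x, d a x ≤ R → x ∈ F) : ∀ (n : ℕ) (x : W), d a x = n → n ≤ R → r ∉ Sep a x := by
  intro n
  induction n with
  | zero => intro x h _; rw [← d_eq_zero.1 h, Sep_self]; simp
  | succ n ih =>
    intro x h hn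
    obtain ⟨s, hs⟩ := exists_desc (b := a) (x := x) (fun e => by rw [e, d_self] at h; omega)
    have h1 := hs.d_eq
    have h2 := ih (g s * x) (by omega) (by omega)
    rw [mem_Sep_step] at h2
    have h3 := hr x (hF x (by omega)) s
    tauto

theorem orbit {B : Type} [MulAction W B] {Y Y' : PS B} (hY : Y'.State) (φ : Hom Y Y')
    {K : Finset W} (ι : EHom (cvxPS K) Y') {o : B} {T : Finset S} (hT : Clq T) (h3 : T.card ≤ 3)
    {x x' : Y.Om} {k : (cvxPS K).Om} (hK : ∀ v, d k.1 v ≤ 3 → v ∈ K) (hk : k.1 • o = Y.f x)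
    (e : φ.π x = ι.π k) (h : Y.cell x T = Y.cell x' T) :
    ∃ k' : (cvxPS K).Om, InW T k.1 k'.1 ∧ k'.1 • o = Y.f x' ∧ φ.π x' = ι.π k' := by
  have := (cell_eq_iff.1 h).2
  clear h
  induction this with
  | refl => exact ⟨k, Relation.ReflTransGen.refl, hk, e⟩
  | tail _ q ih =>
    obtain ⟨k', a, b, c⟩ := ih
    obtain ⟨s, hs, q⟩ := q
    have a' : InW T k.1 (g s * k'.1) := a.tail ⟨s, hs, rfl⟩
    refine ⟨⟨g s * k'.1, hK _ ((a'.d_le hT).trans h3)⟩, a', ?_, ?_⟩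
    · rw [Y.e_f q, ← b, mul_smul]
    · have q1 := φ.e_π q
      rw [c] at q1
      exact hY.fold q1 (ι.e_π rfl)

end LiftA

open LiftA in
theorem liftS (hF : FactS) (hB : BallS) (hH : HullS) (hW : Wedge2S) (hC : ClosS) : LiftS := by
  refine ⟨1 + 13 ^ 6 * (13 ^ 3 * 12), ?_⟩
  intro B _ o n hT Y x0 w0 T c0 hY hw hc h0 hch
  have hc' : ∀ c : Y.Cell, ∃ (x : Y.Om) (J : Finset S) (k : W), c ∈ T →
      c = Y.cell x J ∧ Y.Near n x0 x ∧ k • o = Y.f x ∧ d w0 k ≤ n := fun c => by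
    by_cases h : c ∈ T
    · obtain ⟨x, J, a, b⟩ := hc c h
      obtain ⟨k, a1, a2⟩ := b.lift hw
      exact ⟨x, J, k, fun _ => ⟨a, b, a1, a2⟩⟩
    · exact ⟨x0, ∅, 1, fun k => absurd k h⟩
  choose x J k hx using hc'
  choose bl hb1 hb2 using fun c => hB c 3
  obtain ⟨F, hFd⟩ : ∃ F, F = T.biUnion fun c => bl (k c) := ⟨_, rfl⟩
  have mF : ∀ v, v ∈ F ↔ ∃ c ∈ T, d (k c) v ≤ 3 := fun v => by
    simp only [hFd, Finset.mem_biUnion, hb2]
  have cF : F.card ≤ T.card * 13 ^ 3 := by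
    rw [hFd]
    exact Finset.card_biUnion_le_card_mul _ _ _ fun c _ => hb1 _
  have tri : ∀ a ∈ T, ∀ b ∈ T, Y.Tri a b → ∃ U, Clq U ∧ Y.cell (x a) U = Y.cell (x b) U := by
    rintro a ha b hb ⟨y, y', I, I', U, e1, e2, i1, i2, cU, e3⟩
    have a1 := (hx a ha).1.symm.trans e1
    have b1 := (hx b hb).1.symm.trans e2
    obtain rfl := (cell_eq_iff.1 a1).1
    obtain rfl := (cell_eq_iff.1 b1).1
    exact ⟨U, cU, (cell_mono a1 i1).trans (e3.trans (cell_mono b1 i2).symm)⟩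
  have uq : ∀ a ∈ T, ∀ b ∈ T, ∀ v, d (k a) v ≤ 3 → v • o = Y.f (x b) → v = k b := by
    intro a ha b hb v h1 h2
    refine hT _ _ (h2.trans (hx b hb).2.2.1.symm) ?_
    have t1 := d_triangle v (k a) w0
    have t2 := d_triangle v w0 (k b)
    have := (hx a ha).2.2.2
    have := (hx b hb).2.2.2
    rw [d_comm v (k a), d_comm (k a) w0] at t1
    omega
  have sF : (sepW F).card ≤ F.card * 12 := by
    refine (Finset.card_le_card (t := (F ×ˢ (Finset.univ : Finset S)).image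
      fun p => wall p.2 p.1) fun r hr => ?_).trans (Finset.card_image_le.trans (by simp))
    by_contra hn
    have hr' : ∀ v ∈ F, ∀ s, r ≠ wall s v := fun v hv s e =>
      hn (Finset.mem_image.2 ⟨(v, s), by simp [hv], e.symm⟩)
    have n1 : ∀ c ∈ T, ∀ v, d (k c) v ≤ 3 → r ∉ Sep (k c) v := fun c hc v hv =>
      nosep hr' (fun y hy => (mF y).2 ⟨c, hc, hy⟩) _ v rfl hv
    have n2 : ∀ c ∈ T, r ∉ Sep (k c0) (k c) := fun c hc => by
      have := hch c hc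
      clear hc
      induction this with
      | refl => rw [Sep_self]; simp
      | tail _ q ih =>
        obtain ⟨U, cU, e⟩ := tri _ q.1 _ q.2.1 q.2.2
        obtain ⟨v, v1, v2⟩ := lift_cell e (hx _ q.1).2.2.1
        have v3 := (v1.d_le cU).trans (hF.clq U cU)
        have := n1 _ q.1 v v3
        rw [uq _ q.1 _ q.2.1 v v3 v2] at this
        simp only [mem_Sep] at this ih ⊢
        tauto
    simp only [sepW, Finset.mem_biUnion] at hr
    obtain ⟨a, ha, b, hb, hr⟩ := hr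
    obtain ⟨c, hc, ha⟩ := (mF a).1 ha
    obtain ⟨c', hc', hb⟩ := (mF b).1 hb
    have := n1 c hc a ha
    have := n1 c' hc' b hb
    have := n2 c hc
    have := n2 c' hc'
    simp only [mem_Sep] at *
    tauto
  obtain ⟨K, hK, cK⟩ := hH F ⟨k c0, (mF _).2 ⟨c0, h0, by rw [d_self]; omega⟩⟩
  have mK : ∀ c ∈ T, ∀ v, d (k c) v ≤ 3 → v ∈ K := fun c hc v hv => by
    have : v ∈ (K : Set W) := hK ▸ subset_hull F ((mF v).2 ⟨c, hc, hv⟩)
    exact this
  have kK : ∀ c ∈ T, k c ∈ K := fun c hc => mK c hc _ (by rw [d_self]; omega)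
  have cv : Cvx (K : Set W) := hK ▸ cvx_hull F
  have gK : g 0 * k c0 ∈ K := mK c0 h0 _ (by rw [d_g_mul]; omega)
  obtain ⟨Y1, φ, ι, g1, c1, n1, -, e1⟩ := hW B o Y Unit (fun _ => x c0) (fun _ => k c0)
    (fun _ => K) 0 (fun _ => (hx c0 h0).2.2.1) (fun _ => cv) (fun _ => kK c0 h0) fun _ => gK
  obtain ⟨Y2, ψ, s2, g2, c2, n2⟩ := hC B Y1
  simp only [Finset.univ_unique, Finset.sum_const, Finset.card_singleton, one_smul] at c1 n1
  refine ⟨Y2, φ.comp ψ, K, (ι ()).comp ψ.toEHom, s2, g1.comp g2, c1.comp c2,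
    by have := φ.new_comp ψ; omega, ?_, cv, fun c hc => ?_⟩
  · have : 1 ≤ T.card := Finset.card_pos.2 ⟨c0, h0⟩
    have h1 : (sepW F).card ≤ T.card * 13 ^ 3 * 12 := sF.trans (Nat.mul_le_mul_right _ cF)
    have h2 := Nat.mul_le_mul_left (13 ^ 6) h1
    calc K.card ≤ 1 + 13 ^ 6 * (T.card * 13 ^ 3 * 12) := by omega
      _ ≤ T.card + 13 ^ 6 * (T.card * 13 ^ 3 * 12) := by omega
      _ = _ := by ring
  · refine ⟨x c, J c, ⟨k c, kK c hc⟩, (hx c hc).1, (hx c hc).2.1, (hx c hc).2.2.1,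
      (hx c hc).2.2.2, ?_⟩
    have := hch c hc
    induction this with
    | refl =>
      have q1 := Y2.e_symm (ψ.e_π (e1 ()))
      have q2 : (cvxPS K).e 0 ⟨g 0 * k c0, gK⟩ ⟨k c0, kK c0 h0⟩ := (g_mul_g_mul _ _).symm
      exact s2.fold q1 (ψ.e_π ((ι ()).e_π q2))
    | tail _ q ih =>
      obtain ⟨U, cU, e⟩ := tri _ q.1 _ q.2.1 q.2.2
      obtain ⟨k', v1, v2, v3⟩ := orbit s2 (φ.comp ψ) ((ι ()).comp ψ.toEHom) cU (hF.clq U cU)
        (k := ⟨_, kK _ q.1⟩) (mK _ q.1) (hx _ q.1).2.2.1 (ih q.1) e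
      rw [v3]
      congr 1
      exact Subtype.ext (uq _ q.1 _ q.2.1 _ ((v1.d_le cU).trans (hF.clq U cU)) v2)

end Pool.Agent.MP_df844f_gt
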