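import Pool.Agent.MP_df844f_gt.Spec2

/-! Additional statements for sections 3 and 4 of the proof. -/

namespace Pool.Agent.MP_df844f_gt

open PS

/-- Two cells lie in a common cell of rank three. -/
def PS.Tri {B : Type} [MulAction W B] (Y : PS B) (c c' : Y.Cell) : Prop :=
  ∃ x x' J J' T, c = Y.cell x J ∧ c' = Y.cell x' J' ∧ J ⊆ T ∧ J' ⊆ T ∧ Clq T ∧
    Y.cell x T = Y.cell x' T

/-- A convex set is attached so that a connected family of cells is identified with its lift. -/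
def LiftS : Prop := ∃ CK : ℕ, ∀ (B : Type) [MulAction W B] (o : B) (n : ℕ), Thick o (2 * n + 6) →
  ∀ (Y : PS B) (x0 : Y.Om) (w0 : W) (T : Finset Y.Cell) (c0 : Y.Cell), Y.State →
  w0 • o = Y.f x0 → (∀ c ∈ T, ∃ x J, c = Y.cell x J ∧ Y.Near n x0 x) → c0 ∈ T →
  (∀ c ∈ T, Relation.ReflTransGen (fun a b => a ∈ T ∧ b ∈ T ∧ Y.Tri a b) c0 c) →
  ∃ (Y' : PS B) (φ : Hom Y Y') (K : Finset W) (ι : EHom (cvxPS K) Y'), Y'.State ∧ φ.Good ∧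
    φ.Ctl K.card ∧ φ.new ≤ K.card ∧ K.card ≤ CK * T.card ∧ Cvx (K : Set W) ∧
    ∀ c ∈ T, ∃ (x : Y.Om) (J : Finset S) (k : (cvxPS K).Om), c = Y.cell x J ∧ Y.Near n x0 x ∧
      k.1 • o = Y.f x ∧ d w0 k.1 ≤ n ∧ φ.π x = ι.π k

/-- A connected cycle of rank two cells bounds after attaching a convex set. -/
def Fill1S : Prop := ∃ CK : ℕ, ∀ (B : Type) [MulAction W B] (o : B) (n : ℕ),
  Thick o (2 * n + 6) → ∀ (Y : PS B) (x0 : Y.Om) (w0 : W) (β : Y.Chain) (c0 : Y.Cell), Y.State →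
  w0 • o = Y.f x0 → (∀ c ∈ β.support, ∃ x s t, adj s t ∧ c = Y.cell x {s, t} ∧ Y.Near n x0 x) →
  Y.bd β = 0 → c0 ∈ β.support →
  (∀ c ∈ β.support,
    Relation.ReflTransGen (fun a b => a ∈ β.support ∧ b ∈ β.support ∧ Y.Tri a b) c0 c) →
  ∃ (Y' : PS B) (φ : Hom Y Y') (κ : ℕ) (E : Y'.Chain), Y'.State ∧ φ.Good ∧ φ.Ctl κ ∧ φ.new ≤ κ ∧
    κ ≤ CK * β.support.card ∧ E.support.card ≤ 12 * κ ∧ Y'.bd E = φ.push β ∧
    ∀ c ∈ E.support, ∃ x s, c = Y'.cell x {s} ∧ Y'.Near (n + κ) (φ.π x0) x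

/-- Every cycle of rank two cells bounds after attaching convex sets. -/
def FillYS : Prop := ∃ CK : ℕ, ∀ (B : Type) [MulAction W B] (o : B) (n : ℕ),
  Thick o (2 * n + 6) → ∀ (Y : PS B) (x0 : Y.Om) (w0 : W) (β : Y.Chain), Y.State →
  w0 • o = Y.f x0 → (∀ c ∈ β.support, ∃ x s t, adj s t ∧ c = Y.cell x {s, t} ∧ Y.Near n x0 x) →
  Y.bd β = 0 →
  ∃ (Y' : PS B) (φ : Hom Y Y') (κ : ℕ) (E : Y'.Chain), Y'.State ∧ φ.Good ∧ φ.Ctl κ ∧ φ.new ≤ κ ∧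
    κ ≤ CK * β.support.card ∧ E.support.card ≤ 12 * κ ∧ Y'.bd E = φ.push β ∧
    ∀ c ∈ E.support, ∃ x s, c = Y'.cell x {s} ∧ Y'.Near (n + κ) (φ.π x0) x

end Pool.Agent.MP_df844f_gt
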